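import Pool.Agent.Q54.EM.StmE

/-!
# Project EM, job FIN: the final assembly
-/

set_option autoImplicit false

namespace Pool.Agent.Q49.EM

open Finset Pool.Agent.Q54.EM

theorem fin : S_EXI → S_NUM → S_Z0 → S_ZT → S_ZE → S_W1 → S_W2 → S_FIN := by
  intro hEXI hNUM hZ0 hZT hZE hW1 hW2 k hk
  refine hEXI k (by omega) ?_
  intro ι _ p x r l hrc hopt
  obtain ⟨hn, hxl, hva, hlam⟩ := hNUM ι p x k r l hk hrc hopt
  have hlk : l < k := hZ0 k r l _ _ _ hn
  rcases le_or_gt (r / l) (62 / 100) with hq | hq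
  · exact hW1 ι p x k r l hk hrc hopt (hZT k r l _ _ _ hn hq) hlk
  · obtain ⟨h1, h2⟩ := hZE k r l _ _ _ hn hq
    refine hW2 ι p x k r l hk hrc hopt hxl h2 ?_
    rw [hlam]
    exact h1

end Pool.Agent.Q49.EM
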